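import Pool.Agent.Work.MP_ede3c6_co.X.P4

set_option autoImplicit false

namespace Pool.Agent.Results.MP_ede3c6_co.NearOptimal

open Pool.Agent.Work.MP_ede3c6_co

/-- A caterpillar whose degrees are at most `n - (log₂ n) ^ c` and whose two colour classes have at
most `(1 - ε) 2 ^ (n - 1)` vertices each is a subgraph of the `n`-cube, for `n` large. -/
theorem result (ε : ℝ) (hε : 0 < ε) : ∃ c n0 : ℕ, ∀ n ≥ n0, ∀ (k : ℕ) (a : ℕ → ℕ),
    (∀ i < k, deg k a i + Nat.log 2 n ^ c ≤ n) →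
    (∀ π < 2, ((∑ i ∈ Finset.range k, (if i % 2 = π then 1 else a i) : ℕ) : ℝ) ≤
      (1 - ε) * 2 ^ (n - 1)) → (cat k a).IsContained (cube n) := by
  obtain ⟨c, n0, h⟩ := X.near ε hε
  refine ⟨c, n0, fun n hn k a ha hc => h n hn k a (fun i hi => le_trans ?_ (ha i hi)) hc⟩
  exact Nat.add_le_add_right ((Nat.le_add_right _ _).trans (Nat.le_add_right _ _)) _

end Pool.Agent.Results.MP_ede3c6_co.NearOptimal
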