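import Pool.Agent.Work.MP_ede3c6_co.Y.Core

set_option autoImplicit false

namespace Pool.Agent.Results.MP_ede3c6_co.RoundedCriterion

open Pool.Agent.Work.MP_ede3c6_co

/-- the spine vertex `i` exists and has more than `n - ⌊√n⌋` leaves -/
def Heavy (n k : ℕ) (a : ℕ → ℕ) (i : ℕ) : Prop := i < k ∧ n - Nat.sqrt n < a i

/-- `i` is one of `K` consecutive indices `y` such that `y` or `y + 1` is heavy -/
def Dense (n K k : ℕ) (a : ℕ → ℕ) (i : ℕ) : Prop :=
  ∃ x ≤ i, i < x + K ∧ ∀ y, x ≤ y → y < x + K → Heavy n k a y ∨ Heavy n k a (y + 1)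

open Classical in
/-- If the two colour classes are not almost full after the number of leaves has been raised to `n`
on all long dense stretches, the caterpillar lies in the `n`-cube iff the run condition holds. -/
theorem result (ε : ℝ) (hε : 0 < ε) (K : ℕ) (hK : 1 ≤ K) : ∃ n0 : ℕ, ∀ n ≥ n0,
    ∀ (k : ℕ) (a : ℕ → ℕ), (∀ π < 2, ((∑ i ∈ Finset.range k,
      (if i % 2 = π then 1 else if Dense n K k a i then n else a i) : ℕ) : ℝ) ≤
        (1 - ε) * 2 ^ (n - 1)) → ((cat k a).IsContained (cube n) ↔ Run k a n) := by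
  obtain ⟨K1, K20, h⟩ := Y.core ε hε
  obtain ⟨n0, h⟩ := h (K20 + K) (Nat.le_add_right _ _)
  refine ⟨n0 + 1, fun n hn k a hc => ⟨fun q => ?_, fun hR => ?_⟩⟩
  · obtain ⟨x, y, hd⟩ := (contained_iff k a _).1 q
    exact run_of_data hd
  have ha : ∀ i ∈ Finset.range k, a i ≤ n := fun i hi => by
    simpa [Y.ap, Finset.mem_range.1 hi] using Y.Dich_run hR i
  have hv : ∀ y, ¬ Y.ap k a y ≤ n - Nat.sqrt n → Heavy n k a y := fun y q => by
    unfold Y.ap at q
    split_ifs at q with c
    exacts [⟨c, not_le.1 q⟩, absurd (Nat.zero_le _) q]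
  have hD : ∀ i, Y.IE n (K20 + K) k a i → Dense n K k a i := fun i ⟨x, h1, h2, h3⟩ =>
    ⟨min i (x + K20), min_le_left _ _, by omega, fun y q1 q2 =>
      (not_and_or.1 (h3 y (by omega) (by omega))).imp (hv y) (hv (y + 1))⟩
  refine h n (by omega) k a hR ?_ (Or.inl fun π hπ => le_trans (Nat.cast_le.2
    (Finset.sum_le_sum fun i hi => ?_)) (hc π hπ))
  · have h1 : ∀ π < 2, X.cls k a π ≤ 2 ^ (n - 1) := fun π hπ => by
      have h2 : (1 - ε) * (2 : ℝ) ^ (n - 1) ≤ 2 ^ (n - 1) :=
        mul_le_of_le_one_left (by positivity) (by linarith)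
      have h3 := (hc π hπ).trans h2
      refine le_trans (Finset.sum_le_sum fun i hi => ?_) (by exact_mod_cast h3)
      have := ha i hi
      split_ifs <;> omega
    have h2 : k + ∑ i ∈ Finset.range k, a i = X.cls k a 0 + X.cls k a 1 := by
      rw [Y.Dich_one, X.cls, X.cls, ← Finset.sum_add_distrib]
      exact Finset.sum_congr rfl fun i _ => by split_ifs <;> omega
    have h3 : 2 ^ n = 2 ^ (n - 1) * 2 := by rw [← pow_succ, Nat.sub_add_cancel (by omega)]
    have := h1 0 (by omega)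
    have := h1 1 (by omega)
    omega
  · have := ha i hi
    have := hD i
    split_ifs <;> simp_all

end Pool.Agent.Results.MP_ede3c6_co.RoundedCriterion
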