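import Pool.Agent.Work.MP_ede3c6_co.Y.Core
import Pool.Agent.Work.MP_ede3c6_co.Y.Low

set_option autoImplicit false

namespace Pool.Agent.Results.MP_ede3c6_co.TwoValues

open Pool.Agent.Work.MP_ede3c6_co

/-- Let `r` be the least `n` with the run condition and `m` the least `n` such that both colour
classes have at most `2 ^ (n - 1)` vertices. For all large caterpillars the cubical dimension is
`max r m` or `max r (m + 1)`. -/
theorem result : ∃ n0 : ℕ, ∀ (k : ℕ) (a : ℕ → ℕ) (r m : ℕ), IsLeast {n | Run k a n} r →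
    IsLeast {n | ∀ π < 2,
      2 * ∑ i ∈ Finset.range k, (if i % 2 = π then 1 else a i) ≤ 2 ^ n} m →
    n0 ≤ max r m → cd k a = max r m ∨ cd k a = max r (m + 1) := by
  obtain ⟨n0, h⟩ := Y.half Y.core
  refine ⟨n0 + 2, fun k a r m hr hm h0 => ?_⟩
  have h1 : max r (m + 1) ∈ {n | 1 ≤ n ∧ (cat k a).IsContained (cube n)} := by
    refine ⟨by omega, h _ (by omega) k a (Y.run_mono hr.1 (le_max_left _ _)) fun π hπ => ?_⟩
    have h2 : 2 * X.cls k a π ≤ 2 ^ m := hm.1 π hπ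
    have h3 : 2 ^ m ≤ 2 ^ (max r (m + 1) - 2 + 1) := Nat.pow_le_pow_right two_pos (by omega)
    rw [pow_succ] at h3
    omega
  have h2 : cd k a ≤ max r (m + 1) := Nat.sInf_le h1
  obtain ⟨h3, h4⟩ : cd k a ∈ {n | 1 ≤ n ∧ (cat k a).IsContained (cube n)} := Nat.sInf_mem ⟨_, h1⟩
  have h5 : m ≤ cd k a := hm.2 fun π hπ => Y.cls_le h3 h4 hπ
  obtain ⟨x, y, hd⟩ := (contained_iff k a _).1 h4
  have h6 : r ≤ cd k a := hr.2 (run_of_data hd)
  omega

end Pool.Agent.Results.MP_ede3c6_co.TwoValues
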