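import Pool.Agent.Work.MP_ede3c6_co.V.C2

set_option autoImplicit false

namespace Pool.Agent.Results.MP_ede3c6_co.VolumeCriterion

open Pool.Agent.Work.MP_ede3c6_co

/-- If the spine is short compared with `2 ^ n`, or if the caterpillar has at most a fixed
fraction of `2 ^ n` vertices, then it is a subgraph of the `n`-cube exactly when the run
condition holds at `n`. -/
theorem result (k : ℕ) (a : ℕ → ℕ) (n : ℕ) (hn : 1 ≤ n)
    (hk : k + 2 ≤ (n % 3 + 3) * 2 ^ (n / 3) ∨ 16 * n ^ 4 * (k + 2) ≤ 2 ^ n ∨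
      2 ^ 131 * (k + ∑ i ∈ Finset.range k, a i) ≤ 2 ^ n) :
    (cat k a).IsContained (cube n) ↔ Run k a n := by
  refine ⟨fun h => ?_, fun hR => ?_⟩
  · obtain ⟨x, y, hd⟩ := (contained_iff k a n).mp h
    exact run_of_data hd
  have key : Spread n k → (cat k a).IsContained (cube n) := fun hS =>
    (contained_iff k a n).mpr (data_of_run hS hR)
  rcases hk with h | h | h
  · exact key (spread_third _ k h)
  · exact key (spread_poly _ k h hn)
  rcases le_or_gt 400 n with h1 | h1
  · exact Vol.contained_of_vol h1 h hR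
  rcases Nat.eq_zero_or_pos k with rfl | h2
  · exact key (spread_third _ 0 (le_trans (by omega) (Nat.le_mul_of_pos_right _ (by positivity))))
  refine key (spread_poly _ k (le_trans ?_ h) hn)
  calc 16 * n ^ 4 * (k + 2) ≤ 16 * 400 ^ 4 * (3 * k) := by gcongr; omega
    _ = 16 * 400 ^ 4 * 3 * k := by ring
    _ ≤ _ := Nat.mul_le_mul (by norm_num) (Nat.le_add_right _ _)

end Pool.Agent.Results.MP_ede3c6_co.VolumeCriterion
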